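import Mathlib

set_option autoImplicit false
namespace Pool.Agent.Q169.ReExp
open MeasureTheory Set Filter Topology
open scoped InnerProductSpace ENNReal ComplexConjugate

noncomputable section

/-- Lebesgue measure on `(0, π)`. -/
abbrev mu : Measure ℝ := volume.restrict (Ioo 0 Real.pi)

/-- The Hilbert space `L²(0, π)`. -/
abbrev H : Type := Lp ℂ 2 mu

/-- `s_n(t) = √(2/π) sin (n t)` -/
def sF (n : ℕ) (t : ℝ) : ℂ := ((Real.sqrt (2 / Real.pi) * Real.sin (n * t) : ℝ) : ℂ)

/-- `c_n(t) = √(2/π) cos (n t)` -/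
def cF (n : ℕ) (t : ℝ) : ℂ := ((Real.sqrt (2 / Real.pi) * Real.cos (n * t) : ℝ) : ℂ)

theorem memLp_of_bdd {f : ℝ → ℂ} (hf : Measurable f) (C : ℝ) (hC : ∀ t, ‖f t‖ ≤ C) (p : ℝ≥0∞) :
    MemLp f p mu :=
  MemLp.of_bound hf.aestronglyMeasurable C (Eventually.of_forall hC)

theorem sF_meas (n : ℕ) : Measurable (sF n) := by
  unfold sF; fun_prop

theorem cF_meas (n : ℕ) : Measurable (cF n) := by
  unfold cF; fun_prop

theorem sF_bdd (n : ℕ) (t : ℝ) : ‖sF n t‖ ≤ Real.sqrt (2 / Real.pi) := by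
  unfold sF
  rw [Complex.norm_real, Real.norm_eq_abs, abs_mul, abs_of_nonneg (Real.sqrt_nonneg _)]
  exact mul_le_of_le_one_right (Real.sqrt_nonneg _) (Real.abs_sin_le_one _)

theorem cF_bdd (n : ℕ) (t : ℝ) : ‖cF n t‖ ≤ Real.sqrt (2 / Real.pi) := by
  unfold cF
  rw [Complex.norm_real, Real.norm_eq_abs, abs_mul, abs_of_nonneg (Real.sqrt_nonneg _)]
  exact mul_le_of_le_one_right (Real.sqrt_nonneg _) (Real.abs_cos_le_one _)

/-- the vectors `s_n` -/
def s (n : ℕ) : H := (memLp_of_bdd (sF_meas n) _ (sF_bdd n) 2).toLp (sF n)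

/-- the vectors `c_n` -/
def c (n : ℕ) : H := (memLp_of_bdd (cF_meas n) _ (cF_bdd n) 2).toLp (cF n)

/-- the constant function `1` -/
def one : H := (memLp_of_bdd (f := fun _ => (1 : ℂ)) measurable_const 1 (by simp) 2).toLp _

theorem inner_toLp {u v : ℝ → ℂ} (hu : MemLp u 2 mu) (hv : MemLp v 2 mu) :
    ⟪hu.toLp u, hv.toLp v⟫_ℂ = ∫ t in Ioo 0 Real.pi, v t * conj (u t) := by
  rw [MeasureTheory.L2.inner_def]
  apply integral_congr_ae
  filter_upwards [hu.coeFn_toLp, hv.coeFn_toLp] with t h1 h2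
  rw [h1, h2, RCLike.inner_apply]

theorem inner_toLp_left {u : ℝ → ℂ} (hu : MemLp u 2 mu) (f : H) :
    ⟪hu.toLp u, f⟫_ℂ = ∫ t in Ioo 0 Real.pi, f t * conj (u t) := by
  rw [MeasureTheory.L2.inner_def]
  apply integral_congr_ae
  filter_upwards [hu.coeFn_toLp] with t h1
  rw [h1, RCLike.inner_apply]

theorem integrable_H (f : H) : Integrable (f : ℝ → ℂ) mu :=
  (Lp.memLp f).integrable (by norm_num)

/-! ### integrals -/

theorem int_cos (k : ℤ) (hk : k ≠ 0) : ∫ t in (0 : ℝ)..Real.pi, Real.cos (k * t) = 0 := by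
  have hk' : (k : ℝ) ≠ 0 := by exact_mod_cast hk
  rw [intervalIntegral.integral_comp_mul_left (fun x => Real.cos x) hk']
  simp [integral_cos, Real.sin_int_mul_pi]

theorem int_cos_cos (n m : ℕ) (hn : n ≠ 0 ∨ m ≠ 0) :
    ∫ t in (0 : ℝ)..Real.pi, Real.cos (n * t) * Real.cos (m * t) = if n = m then Real.pi / 2 else 0 := by
  have h1 : ∀ t : ℝ, Real.cos (n * t) * Real.cos (m * t) =
      (1 / 2) * Real.cos (((n : ℤ) + m : ℤ) * t) + (1 / 2) * Real.cos (((n : ℤ) - m : ℤ) * t) := by
    intro t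
    push_cast
    rw [add_mul, sub_mul, Real.cos_add, Real.cos_sub]
    ring
  simp_rw [h1]
  rw [intervalIntegral.integral_add (by apply Continuous.intervalIntegrable; fun_prop)
    (by apply Continuous.intervalIntegrable; fun_prop),
    intervalIntegral.integral_const_mul, intervalIntegral.integral_const_mul,
    int_cos _ (by omega)]
  by_cases h : n = m
  · subst h
    simp
    ring
  · rw [int_cos _ (by omega), if_neg h]
    ring

theorem int_sin_sin (n m : ℕ) (hn : n ≠ 0 ∨ m ≠ 0) :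
    ∫ t in (0 : ℝ)..Real.pi, Real.sin (n * t) * Real.sin (m * t) = if n = m then Real.pi / 2 else 0 := by
  have h1 : ∀ t : ℝ, Real.sin (n * t) * Real.sin (m * t) =
      (1 / 2) * Real.cos (((n : ℤ) - m : ℤ) * t) - (1 / 2) * Real.cos (((n : ℤ) + m : ℤ) * t) := by
    intro t
    push_cast
    rw [add_mul, sub_mul, Real.cos_add, Real.cos_sub]
    ring
  simp_rw [h1]
  rw [intervalIntegral.integral_sub (by apply Continuous.intervalIntegrable; fun_prop)
    (by apply Continuous.intervalIntegrable; fun_prop),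
    intervalIntegral.integral_const_mul, intervalIntegral.integral_const_mul,
    int_cos ((n : ℤ) + m) (by omega)]
  by_cases h : n = m
  · subst h
    simp
    ring
  · rw [int_cos _ (by omega), if_neg h]
    ring

theorem Ioo_eq (f : ℝ → ℂ) : ∫ t in Ioo 0 Real.pi, f t = ∫ t in (0 : ℝ)..Real.pi, f t := by
  rw [intervalIntegral.integral_of_le Real.pi_pos.le, integral_Ioc_eq_integral_Ioo]

theorem orth_c : Orthonormal ℂ (fun n : ℕ => c (n + 1)) := by
  rw [orthonormal_iff_ite]
  intro i j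
  unfold c
  rw [inner_toLp, Ioo_eq]
  have h1 : ∀ t : ℝ, cF (j + 1) t * conj (cF (i + 1) t) =
      (((2 / Real.pi) * (Real.cos (((j + 1 : ℕ) : ℝ) * t) * Real.cos (((i + 1 : ℕ) : ℝ) * t)) : ℝ) : ℂ) := by
    intro t
    unfold cF
    rw [Complex.conj_ofReal, ← Complex.ofReal_mul]
    congr 1
    have := Real.mul_self_sqrt (show (0 : ℝ) ≤ 2 / Real.pi by positivity)
    linear_combination (Real.cos (((j + 1 : ℕ) : ℝ) * t) * Real.cos (((i + 1 : ℕ) : ℝ) * t)) * this
  simp_rw [h1]
  rw [intervalIntegral.integral_ofReal, intervalIntegral.integral_const_mul,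
    int_cos_cos _ _ (by omega)]
  have hpi := Real.pi_pos
  by_cases h : i = j
  · subst h
    simp
  · rw [if_neg (by omega), if_neg h]; simp

theorem orth_s : Orthonormal ℂ (fun n : ℕ => s (n + 1)) := by
  rw [orthonormal_iff_ite]
  intro i j
  unfold s
  rw [inner_toLp, Ioo_eq]
  have h1 : ∀ t : ℝ, sF (j + 1) t * conj (sF (i + 1) t) =
      (((2 / Real.pi) * (Real.sin (((j + 1 : ℕ) : ℝ) * t) * Real.sin (((i + 1 : ℕ) : ℝ) * t)) : ℝ) : ℂ) := by
    intro t
    unfold sF
    rw [Complex.conj_ofReal, ← Complex.ofReal_mul]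
    congr 1
    have := Real.mul_self_sqrt (show (0 : ℝ) ≤ 2 / Real.pi by positivity)
    linear_combination (Real.sin (((j + 1 : ℕ) : ℝ) * t) * Real.sin (((i + 1 : ℕ) : ℝ) * t)) * this
  simp_rw [h1]
  rw [intervalIntegral.integral_ofReal, intervalIntegral.integral_const_mul,
    int_sin_sin _ _ (by omega)]
  have hpi := Real.pi_pos
  by_cases h : i = j
  · subst h
    simp
  · rw [if_neg (by omega), if_neg h]; simp

theorem inner_c_one (n : ℕ) : ⟪one, c (n + 1)⟫_ℂ = 0 := by
  unfold c one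
  rw [inner_toLp, Ioo_eq]
  have h1 : ∀ t : ℝ, cF (n + 1) t * conj (1 : ℂ) =
      ((Real.sqrt (2 / Real.pi) * Real.cos (((n + 1 : ℤ) : ℤ) * t) : ℝ) : ℂ) := by
    intro t
    unfold cF
    push_cast
    simp
  simp_rw [h1]
  rw [intervalIntegral.integral_ofReal, intervalIntegral.integral_const_mul, int_cos _ (by omega)]
  simp

theorem inner_one_one : ⟪one, one⟫_ℂ = Real.pi := by
  unfold one
  rw [inner_toLp, Ioo_eq]
  simp

/-! ### completeness -/

theorem complete_cos {h : ℝ → ℂ} (hh : Integrable h mu)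
    (h0 : ∀ j : ℕ, ∫ t in Ioo 0 Real.pi, h t * ((Real.cos (j * t) : ℝ) : ℂ) = 0) :
    h =ᵐ[mu] 0 := by
  have hint : ∀ u : ℝ → ℝ, Continuous u → (∃ C, ∀ t, |u t| ≤ C) →
      Integrable (fun t => h t * ((u t : ℝ) : ℂ)) mu := by
    intro u hu ⟨C, hC⟩
    refine hh.mul_bdd (c := C) (by fun_prop : Measurable fun t => ((u t : ℝ) : ℂ)).aestronglyMeasurable ?_
    filter_upwards with t
    rw [Complex.norm_real]
    exact hC t
  have hcb : ∀ (j : ℤ) (k : ℕ) (t : ℝ), |Real.cos (j * t) * Real.cos t ^ k| ≤ 1 := by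
    intro j k t
    rw [abs_mul, abs_pow]
    exact mul_le_one₀ (Real.abs_cos_le_one _) (by positivity)
      (pow_le_one₀ (abs_nonneg _) (Real.abs_cos_le_one _))
  have h1 : ∀ (k : ℕ) (j : ℤ),
      ∫ t in Ioo 0 Real.pi, h t * ((Real.cos (j * t) * Real.cos t ^ k : ℝ) : ℂ) = 0 := by
    intro k
    induction k with
    | zero =>
      intro j
      have e : ∀ t : ℝ, Real.cos (j * t) * Real.cos t ^ 0 = Real.cos (((j.natAbs : ℕ) : ℝ) * t) := by
        intro t
        rw [pow_zero, mul_one]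
        have h2 : ((j.natAbs : ℕ) : ℝ) = |(j : ℝ)| := by
          rw [← Int.cast_natCast, Int.natCast_natAbs]
          push_cast
          rfl
        rw [h2]
        rcases abs_cases (j : ℝ) with ⟨h3, -⟩ | ⟨h3, -⟩
        · rw [h3]
        · rw [h3, neg_mul, Real.cos_neg]
      simp_rw [e]
      exact h0 _
    | succ k ih =>
      intro j
      have e : ∀ t : ℝ, h t * ((Real.cos (j * t) * Real.cos t ^ (k + 1) : ℝ) : ℂ) =
          (1 / 2 : ℂ) * (h t * ((Real.cos (((j + 1 : ℤ) : ℝ) * t) * Real.cos t ^ k : ℝ) : ℂ)) +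
          (1 / 2 : ℂ) * (h t * ((Real.cos (((j - 1 : ℤ) : ℝ) * t) * Real.cos t ^ k : ℝ) : ℂ)) := by
        intro t
        have e2 : Real.cos (j * t) * Real.cos t ^ (k + 1) =
          1 / 2 * (Real.cos (((j + 1 : ℤ) : ℝ) * t) * Real.cos t ^ k) +
          1 / 2 * (Real.cos (((j - 1 : ℤ) : ℝ) * t) * Real.cos t ^ k) := by
          push_cast
          rw [add_mul, sub_mul, one_mul, Real.cos_add, Real.cos_sub]
          ring
        rw [e2]
        push_cast
        ring
      simp_rw [e]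
      rw [integral_add, integral_const_mul, integral_const_mul, ih, ih]
      · simp
      · exact (hint _ (by fun_prop) ⟨1, hcb _ _⟩).const_mul _
      · exact (hint _ (by fun_prop) ⟨1, hcb _ _⟩).const_mul _
  have h2 : ∀ p : Polynomial ℝ, ∫ t in Ioo 0 Real.pi, h t * ((p.eval (Real.cos t) : ℝ) : ℂ) = 0 := by
    intro p
    induction p using Polynomial.induction_on' with
    | add p q hp hq =>
      simp_rw [Polynomial.eval_add, Complex.ofReal_add, mul_add]
      have hb : ∀ p : Polynomial ℝ, Integrable (fun t => h t * ((p.eval (Real.cos t) : ℝ) : ℂ)) mu := by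
        intro p
        refine hint _ (by fun_prop) ?_
        obtain ⟨C, hC⟩ := (isCompact_Icc (a := (-1 : ℝ)) (b := 1)).exists_bound_of_continuousOn
          (f := fun x => p.eval x) (by fun_prop)
        exact ⟨C, fun t => hC _ ⟨Real.neg_one_le_cos t, Real.cos_le_one t⟩⟩
      rw [integral_add (hb p) (hb q), hp, hq, add_zero]
    | monomial k a =>
      have := h1 k 0
      simp only [Polynomial.eval_monomial]
      have e : ∀ t : ℝ, h t * ((a * Real.cos t ^ k : ℝ) : ℂ) =
          (a : ℂ) * (h t * ((Real.cos (((0 : ℤ) : ℝ) * t) * Real.cos t ^ k : ℝ) : ℂ)) := by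
        intro t
        push_cast
        simp
        ring
      simp_rw [e]
      rw [integral_const_mul, this, mul_zero]
  have key : ∀ g : ℝ → ℝ, ContDiff ℝ ((⊤ : ℕ∞) : WithTop ℕ∞) g → HasCompactSupport g → tsupport g ⊆ Ioo 0 Real.pi →
      ∫ t, g t • h t = 0 := by
    intro g hg hgc hgs
    have e0 : ∫ t, g t • h t = ∫ t in Ioo 0 Real.pi, h t * ((g t : ℝ) : ℂ) := by
      rw [← setIntegral_eq_integral_of_forall_compl_eq_zero (s := Ioo 0 Real.pi)]
      · apply integral_congr_ae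
        filter_upwards with t
        rw [Complex.real_smul, mul_comm]
      · intro t ht
        have : g t = 0 := by
          by_contra h3
          exact ht (hgs (subset_tsupport g h3))
        rw [this, zero_smul]
    rw [e0]
    by_contra hne
    have hpos : 0 < ‖∫ t in Ioo 0 Real.pi, h t * ((g t : ℝ) : ℂ)‖ := norm_pos_iff.2 hne
    set I := ‖∫ t in Ioo 0 Real.pi, h t * ((g t : ℝ) : ℂ)‖ with hI
    set L := ∫ t in Ioo 0 Real.pi, ‖h t‖ with hL
    have hL0 : 0 ≤ L := integral_nonneg fun t => norm_nonneg _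
    have hε : 0 < I / (2 * (L + 1)) := by positivity
    obtain ⟨p, hp⟩ := exists_polynomial_near_of_continuousOn (-1) 1
      (fun x => g (Real.arccos x)) (hg.continuous.comp Real.continuous_arccos).continuousOn _ hε
    have hgb : ∃ C, ∀ t, |g t| ≤ C := by
      obtain ⟨C, hC⟩ := hgc.exists_bound_of_continuous hg.continuous
      exact ⟨C, hC⟩
    have hpb : ∃ C, ∀ t, |p.eval (Real.cos t)| ≤ C := by
      obtain ⟨C, hC⟩ := (isCompact_Icc (a := (-1 : ℝ)) (b := 1)).exists_bound_of_continuousOn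
          (f := fun x => p.eval x) (by fun_prop)
      exact ⟨C, fun t => hC _ ⟨Real.neg_one_le_cos t, Real.cos_le_one t⟩⟩
    have e1 : ∫ t in Ioo 0 Real.pi, h t * ((g t : ℝ) : ℂ) =
        ∫ t in Ioo 0 Real.pi, (h t * ((g t : ℝ) : ℂ) - h t * ((p.eval (Real.cos t) : ℝ) : ℂ)) := by
      rw [integral_sub (hint _ hg.continuous hgb) (hint _ (by fun_prop) hpb), h2, sub_zero]
    have e2 : I ≤ I / (2 * (L + 1)) * L := by
      clear_value L
      have e3 : I = ‖∫ t in Ioo 0 Real.pi, (h t * ((g t : ℝ) : ℂ) -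
          h t * ((p.eval (Real.cos t) : ℝ) : ℂ))‖ := by rw [hI, e1]
      clear_value I
      nth_rewrite 1 [e3]
      refine (norm_integral_le_integral_norm _).trans ?_
      rw [show I / (2 * (L + 1)) * L = ∫ t in Ioo 0 Real.pi, I / (2 * (L + 1)) * ‖h t‖ by
        rw [integral_const_mul, ← hL]]
      refine integral_mono_ae ?_ ?_ ?_
      · exact ((hint _ hg.continuous hgb).sub (hint _ (by fun_prop) hpb)).norm
      · exact hh.norm.const_mul _
      · filter_upwards [ae_restrict_mem measurableSet_Ioo] with t ht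
        rw [← mul_sub, norm_mul, ← Complex.ofReal_sub, Complex.norm_real, mul_comm]
        refine mul_le_mul_of_nonneg_right ?_ (norm_nonneg _)
        have h4 := hp (Real.cos t) ⟨Real.neg_one_le_cos t, Real.cos_le_one t⟩
        rw [Real.arccos_cos ht.1.le ht.2.le] at h4
        rw [Real.norm_eq_abs, abs_sub_comm]
        exact h4.le
    have e3 : I / (2 * (L + 1)) * L < I := by
      rw [div_mul_eq_mul_div, div_lt_iff₀ (by positivity)]
      nlinarith
    linarith
  have hloc : LocallyIntegrableOn h (Ioo 0 Real.pi) volume := by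
    apply IntegrableOn.locallyIntegrableOn
    exact hh
  have := isOpen_Ioo.ae_eq_zero_of_integral_contDiff_smul_eq_zero hloc key
  rw [Filter.EventuallyEq, ae_restrict_iff' measurableSet_Ioo]
  exact this

theorem complete_sin {h : ℝ → ℂ} (hh : Integrable h mu)
    (h0 : ∀ j : ℕ, ∫ t in Ioo 0 Real.pi, h t * ((Real.sin ((j + 1 : ℕ) * t) : ℝ) : ℂ) = 0) :
    h =ᵐ[mu] 0 := by
  have hint : ∀ u : ℝ → ℝ, Continuous u → (∃ C, ∀ t, |u t| ≤ C) →
      Integrable (fun t => h t * ((u t : ℝ) : ℂ)) mu := by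
    intro u hu ⟨C, hC⟩
    refine hh.mul_bdd (c := C) (by fun_prop : Measurable fun t => ((u t : ℝ) : ℂ)).aestronglyMeasurable ?_
    filter_upwards with t
    rw [Complex.norm_real]
    exact hC t
  have h1 : ∀ j : ℤ, ∫ t in Ioo 0 Real.pi, h t * ((Real.sin (j * t) : ℝ) : ℂ) = 0 := by
    intro j
    obtain ⟨k, hk | hk⟩ := j.eq_nat_or_neg
    · subst hk
      rcases k with _ | k
      · simp
      · exact h0 k
    · subst hk
      rcases k with _ | k
      · simp
      · have e : ∀ t : ℝ, h t * ((Real.sin (((-((k + 1 : ℕ) : ℤ) : ℤ) : ℝ) * t) : ℝ) : ℂ) =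
            -(h t * ((Real.sin ((k + 1 : ℕ) * t) : ℝ) : ℂ)) := by
          intro t
          push_cast
          rw [neg_mul, Complex.sin_neg, mul_neg]
        simp_rw [e]
        rw [integral_neg, h0 k, neg_zero]
  have h2 : (fun t => h t * ((Real.sin t : ℝ) : ℂ)) =ᵐ[mu] 0 := by
    apply complete_cos (hint _ Real.continuous_sin ⟨1, Real.abs_sin_le_one⟩)
    intro j
    have e : ∀ t : ℝ, h t * ((Real.sin t : ℝ) : ℂ) * ((Real.cos (j * t) : ℝ) : ℂ) =
        (1 / 2 : ℂ) * (h t * ((Real.sin (((j + 1 : ℤ) : ℝ) * t) : ℝ) : ℂ)) -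
        (1 / 2 : ℂ) * (h t * ((Real.sin (((j - 1 : ℤ) : ℝ) * t) : ℝ) : ℂ)) := by
      intro t
      have e2 : Real.sin t * Real.cos (j * t) = 1 / 2 * Real.sin (((j + 1 : ℤ) : ℝ) * t) -
          1 / 2 * Real.sin (((j - 1 : ℤ) : ℝ) * t) := by
        push_cast
        rw [add_mul, sub_mul, one_mul, Real.sin_add, Real.sin_sub]
        ring
      rw [mul_assoc, ← Complex.ofReal_mul, e2]
      push_cast
      ring
    simp_rw [e]
    have hb : ∀ j : ℤ, ∃ C : ℝ, ∀ t : ℝ, |Real.sin (j * t)| ≤ C :=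
      fun j => ⟨1, fun t => Real.abs_sin_le_one _⟩
    rw [integral_sub ((hint _ (by fun_prop) (hb _)).const_mul _)
      ((hint _ (by fun_prop) (hb _)).const_mul _), integral_const_mul, integral_const_mul, h1, h1]
    simp
  filter_upwards [h2, ae_restrict_mem measurableSet_Ioo] with t ht h3
  have h4 : ((Real.sin t : ℝ) : ℂ) ≠ 0 := by
    exact_mod_cast (Real.sin_pos_of_mem_Ioo h3).ne'
  exact (mul_eq_zero.1 ht).resolve_right h4

end

end Pool.Agent.Q169.ReExp
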