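import Mathlib
import Pool.Agent.Q169.ReExp.Base

set_option autoImplicit false
namespace Pool.Agent.Q169.ReExp
open MeasureTheory Set Filter Topology
open scoped InnerProductSpace ENNReal ComplexConjugate

noncomputable section

/-- `log cot (t/2)` -/
def phi (t : ℝ) : ℝ := Real.log (Real.cos (t / 2) / Real.sin (t / 2))

/-- `f_τ(t) = cot(t/2)^{2 i τ}` -/
def fF (τ : ℝ) (t : ℝ) : ℂ := Complex.exp (2 * Complex.I * τ * phi t)

theorem fF_meas (τ : ℝ) : Measurable (fF τ) := by
  unfold fF phi
  fun_prop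

theorem fF_norm (τ t : ℝ) : ‖fF τ t‖ = 1 := by
  unfold fF
  rw [show (2 * Complex.I * τ * phi t : ℂ) = ((2 * τ * phi t : ℝ) : ℂ) * Complex.I by push_cast; ring]
  exact Complex.norm_exp_ofReal_mul_I _

/-- `((1+z)/(1-z))^{2 i τ}` -/
def FF (τ : ℝ) (z : ℂ) : ℂ := Complex.exp (2 * Complex.I * τ * Complex.log ((1 + z) / (1 - z)))

theorem FF_bdd (τ : ℝ) (z : ℂ) : ‖FF τ z‖ ≤ Real.exp (2 * |τ| * Real.pi) := by
  unfold FF
  rw [Complex.norm_exp]
  apply Real.exp_le_exp.2
  have h1 : (2 * Complex.I * τ * Complex.log ((1 + z) / (1 - z))).re =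
      -(2 * τ * Complex.arg ((1 + z) / (1 - z))) := by
    simp [Complex.log_im]
  rw [h1]
  calc -(2 * τ * Complex.arg ((1 + z) / (1 - z))) ≤ |2 * τ * Complex.arg ((1 + z) / (1 - z))| :=
        neg_le_abs _
    _ = 2 * |τ| * |Complex.arg ((1 + z) / (1 - z))| := by
        rw [abs_mul, abs_mul, abs_two]
    _ ≤ 2 * |τ| * Real.pi := by
        apply mul_le_mul_of_nonneg_left (Complex.abs_arg_le_pi _) (by positivity)

theorem re_pos {z : ℂ} (hz : ‖z‖ < 1) : 0 < ((1 + z) / (1 - z)).re := by
  have h1 : (1 - z) ≠ 0 := by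
    intro h
    have : z = 1 := by linear_combination -h
    rw [this, norm_one] at hz
    exact lt_irrefl _ hz
  have h2 : 0 < Complex.normSq (1 - z) := Complex.normSq_pos.2 h1
  have h3 : Complex.normSq z < 1 := by
    rw [Complex.normSq_eq_norm_sq]
    nlinarith [norm_nonneg z]
  rw [Complex.normSq_apply] at h3
  rw [Complex.div_re, ← add_div]
  apply div_pos _ h2
  simp
  nlinarith

theorem FF_diff (τ : ℝ) {z : ℂ} (h1 : (1 - z) ≠ 0) (h2 : (1 + z) / (1 - z) ∈ Complex.slitPlane) :
    DifferentiableAt ℂ (FF τ) z := by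
  unfold FF
  refine DifferentiableAt.cexp ?_
  refine (differentiableAt_const _).mul ?_
  refine DifferentiableAt.clog ?_ h2
  exact ((differentiableAt_const _).add differentiableAt_id).div
    ((differentiableAt_const _).sub differentiableAt_id) h1

theorem FF_diff_ball (τ : ℝ) {z : ℂ} (hz : ‖z‖ < 1) : DifferentiableAt ℂ (FF τ) z := by
  apply FF_diff
  · intro h
    have : z = 1 := by linear_combination -h
    rw [this, norm_one] at hz
    exact lt_irrefl _ hz
  · exact Or.inl (re_pos hz)

theorem exp_ratio (t : ℝ) (ht : Real.sin (t / 2) ≠ 0) :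
    (1 - Complex.exp (t * Complex.I)) ≠ 0 ∧
    (1 + Complex.exp (t * Complex.I)) / (1 - Complex.exp (t * Complex.I)) =
      ((Real.cos (t / 2) / Real.sin (t / 2) : ℝ) : ℂ) * Complex.I := by
  have e : Complex.exp (t * Complex.I) = Complex.exp ((t / 2 : ℝ) * Complex.I) ^ 2 := by
    rw [← Complex.exp_nat_mul]
    congr 1
    push_cast
    ring
  have e2 : Complex.exp ((t / 2 : ℝ) * Complex.I) =
      (Real.cos (t / 2) : ℂ) + (Real.sin (t / 2) : ℂ) * Complex.I := by
    rw [Complex.exp_mul_I, ← Complex.ofReal_cos, ← Complex.ofReal_sin]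
  have h0 : ((Real.sin (t / 2) : ℝ) : ℂ) ≠ 0 := by exact_mod_cast ht
  have hsc : ((Real.sin (t / 2) : ℝ) : ℂ) ^ 2 + ((Real.cos (t / 2) : ℝ) : ℂ) ^ 2 = 1 := by
    exact_mod_cast Real.sin_sq_add_cos_sq (t / 2)
  set a : ℂ := ((Real.cos (t / 2) : ℝ) : ℂ)
  set b : ℂ := ((Real.sin (t / 2) : ℝ) : ℂ)
  have e3 : 1 - Complex.exp (t * Complex.I) = -2 * Complex.I * b * (a + b * Complex.I) := by
    rw [e, e2]
    linear_combination -hsc + (b ^ 2) * Complex.I_sq
  have e4 : 1 + Complex.exp (t * Complex.I) = 2 * a * (a + b * Complex.I) := by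
    rw [e, e2]
    linear_combination -hsc + (b ^ 2) * Complex.I_sq
  have h5 : a + b * Complex.I ≠ 0 := by
    rw [← e2]
    exact Complex.exp_ne_zero _
  constructor
  · rw [e3]
    refine mul_ne_zero (mul_ne_zero (mul_ne_zero ?_ Complex.I_ne_zero) h0) h5
    norm_num
  · rw [e3, e4, Complex.ofReal_div]
    rw [div_eq_iff (mul_ne_zero (mul_ne_zero (mul_ne_zero (by norm_num) Complex.I_ne_zero) h0) h5)]
    change _ = a / b * Complex.I * _
    calc 2 * a * (a + b * Complex.I) =
        (a / b * b) * (-(Complex.I * Complex.I)) * 2 * (a + b * Complex.I) := by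
          rw [div_mul_cancel₀ _ h0, Complex.I_mul_I]; ring
      _ = _ := by ring

/-- values of `FF` on the upper half of the circle -/
theorem FF_upper (τ t : ℝ) (h0 : 0 < t) (h1 : t < Real.pi) :
    FF τ (Complex.exp (t * Complex.I)) = Real.exp (-(Real.pi * τ)) * fF τ t := by
  have hs : 0 < Real.sin (t / 2) := Real.sin_pos_of_pos_of_lt_pi (by linarith) (by linarith)
  have hc : 0 < Real.cos (t / 2) := Real.cos_pos_of_mem_Ioo ⟨by linarith, by linarith⟩
  have h2 := (exp_ratio t hs.ne').2
  unfold FF fF phi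
  rw [h2]
  have hp : 0 < Real.cos (t / 2) / Real.sin (t / 2) := div_pos hc hs
  rw [Complex.log_ofReal_mul hp Complex.I_ne_zero, Complex.log_I, Complex.ofReal_exp,
    ← Complex.exp_add]
  congr 1
  push_cast
  linear_combination (τ * Real.pi : ℂ) * Complex.I_sq

/-- values of `FF` on the lower half of the circle -/
theorem FF_lower (τ t : ℝ) (h0 : 0 < t) (h1 : t < Real.pi) :
    FF τ (Complex.exp ((2 * Real.pi - t : ℝ) * Complex.I)) = Real.exp (Real.pi * τ) * fF τ t := by
  have hs : 0 < Real.sin (t / 2) := Real.sin_pos_of_pos_of_lt_pi (by linarith) (by linarith)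
  have hc : 0 < Real.cos (t / 2) := Real.cos_pos_of_mem_Ioo ⟨by linarith, by linarith⟩
  have e1 : Real.sin ((2 * Real.pi - t) / 2) = Real.sin (t / 2) := by
    rw [show (2 * Real.pi - t) / 2 = Real.pi - t / 2 by ring, Real.sin_pi_sub]
  have e2 : Real.cos ((2 * Real.pi - t) / 2) = -Real.cos (t / 2) := by
    rw [show (2 * Real.pi - t) / 2 = Real.pi - t / 2 by ring, Real.cos_pi_sub]
  have h2 := (exp_ratio (2 * Real.pi - t) (by rw [e1]; exact hs.ne')).2
  unfold FF fF phi
  rw [h2, e1, e2]
  have hp : 0 < Real.cos (t / 2) / Real.sin (t / 2) := div_pos hc hs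
  rw [show ((-Real.cos (t / 2) / Real.sin (t / 2) : ℝ) : ℂ) * Complex.I =
    ((Real.cos (t / 2) / Real.sin (t / 2) : ℝ) : ℂ) * -Complex.I by push_cast; ring]
  rw [Complex.log_ofReal_mul hp (neg_ne_zero.2 Complex.I_ne_zero), Complex.log_neg_I,
    Complex.ofReal_exp, ← Complex.exp_add]
  congr 1
  push_cast
  linear_combination (-(τ * Real.pi) : ℂ) * Complex.I_sq

theorem circ_zero (τ r : ℝ) (m : ℕ) (h0 : 0 < r) (h1 : r < 1) :
    ∫ t in (0 : ℝ)..2 * Real.pi, FF τ (r * Complex.exp (t * Complex.I)) *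
      (r * Complex.exp (t * Complex.I)) ^ (m + 1) = 0 := by
  have h2 : ∮ z in C(0, r), FF τ z * z ^ m = 0 := by
    apply Complex.circleIntegral_eq_zero_of_differentiable_on_off_countable h0.le
      (s := ∅) countable_empty
    · intro z hz
      have hz1 : ‖z‖ < 1 := by
        have : ‖z‖ ≤ r := by simpa using hz
        linarith
      exact ((FF_diff_ball τ hz1).continuousAt.mul (by fun_prop)).continuousWithinAt
    · intro z hz
      have hz1 : ‖z‖ < 1 := by
        have : ‖z‖ < r := by simpa using hz.1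
        linarith
      exact (FF_diff_ball τ hz1).mul (by fun_prop)
  rw [circleIntegral] at h2
  have e : ∀ t : ℝ, deriv (circleMap 0 r) t • (FF τ (circleMap 0 r t) * circleMap 0 r t ^ m) =
      Complex.I * (FF τ (r * Complex.exp (t * Complex.I)) *
      (r * Complex.exp (t * Complex.I)) ^ (m + 1)) := by
    intro t
    rw [deriv_circleMap, smul_eq_mul]
    simp only [circleMap, zero_add]
    ring
  simp_rw [e] at h2
  rw [intervalIntegral.integral_const_mul] at h2
  exact (mul_eq_zero.1 h2).resolve_left Complex.I_ne_zero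

theorem bdry_zero (τ : ℝ) (m : ℕ) :
    ∫ t in (0 : ℝ)..2 * Real.pi, FF τ (Complex.exp (t * Complex.I)) *
      (Complex.exp (t * Complex.I)) ^ (m + 1) = 0 := by
  have hpi := Real.pi_pos
  set r : ℕ → ℝ := fun k => 1 - 1 / ((k : ℝ) + 2) with hr
  have hr0 : ∀ k, 0 < r k ∧ r k < 1 := by
    intro k
    have h1 : (0 : ℝ) < 1 / ((k : ℝ) + 2) := by positivity
    have h2 : 1 / ((k : ℝ) + 2) < 1 := by
      rw [div_lt_one (by positivity)]
      have : (0 : ℝ) ≤ k := Nat.cast_nonneg k
      linarith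
    simp only [hr]
    constructor <;> linarith
  have hrt : Tendsto r atTop (𝓝 1) := by
    have : Tendsto (fun k : ℕ => 1 / ((k : ℝ) + 2)) atTop (𝓝 0) := by
      have h := tendsto_one_div_add_atTop_nhds_zero_nat (𝕜 := ℝ)
      have h2 := h.comp (tendsto_add_atTop_nat 1)
      refine h2.congr fun k => ?_
      simp only [Function.comp]
      push_cast
      ring_nf
    simpa [hr] using (tendsto_const_nhds (x := (1 : ℝ))).sub this
  have hlim : Tendsto (fun k => ∫ t in (0 : ℝ)..2 * Real.pi,
      FF τ (r k * Complex.exp (t * Complex.I)) * (r k * Complex.exp (t * Complex.I)) ^ (m + 1)) atTop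
      (𝓝 (∫ t in (0 : ℝ)..2 * Real.pi, FF τ (Complex.exp (t * Complex.I)) *
      (Complex.exp (t * Complex.I)) ^ (m + 1))) := by
    apply intervalIntegral.tendsto_integral_filter_of_dominated_convergence
      (fun _ => Real.exp (2 * |τ| * Real.pi))
    · filter_upwards with k
      apply Continuous.aestronglyMeasurable
      rw [continuous_iff_continuousAt]
      intro t
      have hz : ‖(r k : ℂ) * Complex.exp (t * Complex.I)‖ < 1 := by
        rw [norm_mul, Complex.norm_exp_ofReal_mul_I, mul_one, Complex.norm_real, Real.norm_eq_abs,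
          abs_of_pos (hr0 k).1]
        exact (hr0 k).2
      have hc : ContinuousAt (fun t : ℝ => (r k : ℂ) * Complex.exp (t * Complex.I)) t := by fun_prop
      have hd : ContinuousAt (FF τ) ((fun t : ℝ => (r k : ℂ) * Complex.exp (t * Complex.I)) t) :=
        (FF_diff_ball τ hz).continuousAt
      have h3 : ContinuousAt (fun t : ℝ => FF τ ((r k : ℂ) * Complex.exp (t * Complex.I))) t :=
        Tendsto.comp (g := FF τ) hd hc
      exact h3.mul (hc.pow _)
    · filter_upwards with k
      filter_upwards with t _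
      rw [norm_mul, norm_pow, norm_mul, Complex.norm_exp_ofReal_mul_I, mul_one, Complex.norm_real,
        Real.norm_eq_abs, abs_of_pos (hr0 k).1]
      calc _ ≤ ‖FF τ (r k * Complex.exp (t * Complex.I))‖ * 1 := by
            apply mul_le_mul_of_nonneg_left _ (norm_nonneg _)
            exact pow_le_one₀ (hr0 k).1.le (hr0 k).2.le
        _ ≤ _ := by rw [mul_one]; exact FF_bdd _ _
    · exact intervalIntegrable_const
    · have hnull : ∀ᵐ t : ℝ, t ≠ Real.pi ∧ t ≠ 2 * Real.pi := by
        have h1 : ∀ᵐ t : ℝ, t ≠ Real.pi := by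
          simp [ae_iff]
        have h2 : ∀ᵐ t : ℝ, t ≠ 2 * Real.pi := by
          simp [ae_iff]
        filter_upwards [h1, h2] with t a b using ⟨a, b⟩
      filter_upwards [hnull] with t ht htm
      rw [uIoc_of_le (by positivity)] at htm
      have ht2 : t < 2 * Real.pi := lt_of_le_of_ne htm.2 ht.2
      have hs : Real.sin (t / 2) ≠ 0 :=
        (Real.sin_pos_of_pos_of_lt_pi (by linarith [htm.1]) (by linarith)).ne'
      have hc : Real.cos (t / 2) ≠ 0 := by
        intro hc
        rw [Real.cos_eq_zero_iff] at hc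
        obtain ⟨k, hk⟩ := hc
        have h3 : t = (2 * k + 1) * Real.pi := by linarith
        have h4 : (0 : ℝ) < 2 * k + 1 := by
          by_contra hcon
          push Not at hcon
          have := mul_nonpos_of_nonpos_of_nonneg hcon hpi.le
          linarith [htm.1]
        have h5 : (2 * k + 1 : ℝ) < 2 := by
          by_contra hcon
          push Not at hcon
          have := mul_le_mul_of_nonneg_right hcon hpi.le
          linarith
        have h6 : (0 : ℤ) < 2 * k + 1 := by exact_mod_cast h4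
        have h7 : (2 * k + 1 : ℤ) < 2 := by exact_mod_cast h5
        have h8 : k = 0 := by omega
        rw [h8] at h3
        apply ht.1
        rw [h3]; simp
      obtain ⟨q1, q2⟩ := exp_ratio t hs
      have hsl : (1 + Complex.exp (t * Complex.I)) / (1 - Complex.exp (t * Complex.I)) ∈
          Complex.slitPlane := by
        rw [q2]
        right
        rw [Complex.mul_I_im, Complex.ofReal_re]
        exact div_ne_zero hc hs
      have hcont := (FF_diff τ q1 hsl).continuousAt
      have harg : Tendsto (fun k => (r k : ℂ) * Complex.exp (t * Complex.I)) atTop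
          (𝓝 (Complex.exp (t * Complex.I))) := by
        have h9 : Tendsto (fun k => (r k : ℂ)) atTop (𝓝 ((1 : ℝ) : ℂ)) :=
          (Complex.continuous_ofReal.tendsto 1).comp hrt
        simpa using h9.mul_const (Complex.exp (t * Complex.I))
      exact (hcont.tendsto.comp harg).mul (harg.pow _)
  have hz : ∀ k, ∫ t in (0 : ℝ)..2 * Real.pi,
      FF τ (r k * Complex.exp (t * Complex.I)) * (r k * Complex.exp (t * Complex.I)) ^ (m + 1) = 0 :=
    fun k => circ_zero τ (r k) m (hr0 k).1 (hr0 k).2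
  simp_rw [hz] at hlim
  exact (tendsto_nhds_unique hlim tendsto_const_nhds)

theorem FF_int (τ : ℝ) (m : ℕ) (a b : ℝ) : IntervalIntegrable (fun t : ℝ =>
    FF τ (Complex.exp (t * Complex.I)) * (Complex.exp (t * Complex.I)) ^ (m + 1)) volume a b := by
  have hm : Measurable fun t : ℝ =>
      FF τ (Complex.exp (t * Complex.I)) * (Complex.exp (t * Complex.I)) ^ (m + 1) := by
    unfold FF
    fun_prop
  rw [intervalIntegrable_iff]
  refine Measure.integrableOn_of_bounded (M := Real.exp (2 * |τ| * Real.pi)) ?_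
    hm.aestronglyMeasurable ?_
  · rw [uIoc]; exact measure_Ioc_lt_top.ne
  · filter_upwards with t
    rw [norm_mul, norm_pow, Complex.norm_exp_ofReal_mul_I, one_pow, mul_one]
    exact FF_bdd _ _

/-- The factor `i tanh (π τ)`. -/
def lam (τ : ℝ) : ℂ := Complex.I *
  (((Real.exp (Real.pi * τ) - Real.exp (-(Real.pi * τ))) /
    (Real.exp (Real.pi * τ) + Real.exp (-(Real.pi * τ))) : ℝ) : ℂ)

theorem lam_norm (τ : ℝ) : ‖lam τ‖ < 1 := by
  unfold lam
  rw [norm_mul, Complex.norm_I, one_mul, Complex.norm_real, Real.norm_eq_abs, abs_div]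
  have h1 := Real.exp_pos (Real.pi * τ)
  have h2 := Real.exp_pos (-(Real.pi * τ))
  rw [abs_of_pos (add_pos h1 h2), div_lt_one (add_pos h1 h2), abs_lt]
  constructor <;> linarith

theorem eig_int (τ : ℝ) (m : ℕ) :
    ∫ t in Ioo 0 Real.pi, fF τ t * ((Real.cos ((m + 1 : ℕ) * t) : ℝ) : ℂ) =
      lam τ * ∫ t in Ioo 0 Real.pi, fF τ t * ((Real.sin ((m + 1 : ℕ) * t) : ℝ) : ℂ) := by
  have hpi := Real.pi_pos
  have h0 := bdry_zero τ m
  have hfi : Integrable (fF τ) mu := by
    have := (memLp_of_bdd (fF_meas τ) 1 (fun t => (fF_norm τ t).le) 1)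
    exact memLp_one_iff_integrable.1 this
  have hint : ∀ u : ℝ → ℝ, Continuous u → (∀ t, |u t| ≤ 1) →
      Integrable (fun t => fF τ t * ((u t : ℝ) : ℂ)) mu := by
    intro u hu hC
    refine hfi.mul_bdd (c := 1) (by fun_prop : Measurable fun t => ((u t : ℝ) : ℂ)).aestronglyMeasurable ?_
    filter_upwards with t
    rw [Complex.norm_real]
    exact hC t
  have hic := hint (fun t => Real.cos ((m + 1 : ℕ) * t)) (by fun_prop) (fun t => Real.abs_cos_le_one _)
  have his := hint (fun t => Real.sin ((m + 1 : ℕ) * t)) (by fun_prop) (fun t => Real.abs_sin_le_one _)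
  set C := ∫ t in Ioo 0 Real.pi, fF τ t * ((Real.cos ((m + 1 : ℕ) * t) : ℝ) : ℂ) with hC
  set S := ∫ t in Ioo 0 Real.pi, fF τ t * ((Real.sin ((m + 1 : ℕ) * t) : ℝ) : ℂ) with hS
  have hA : ∫ t in (0 : ℝ)..Real.pi, FF τ (Complex.exp (t * Complex.I)) *
      (Complex.exp (t * Complex.I)) ^ (m + 1) = Real.exp (-(Real.pi * τ)) * (C + Complex.I * S) := by
    rw [← Ioo_eq, hC, hS, ← integral_const_mul, ← integral_add hic (his.const_mul _),
      ← integral_const_mul]
    apply setIntegral_congr_fun measurableSet_Ioo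
    intro t ht
    simp only
    rw [FF_upper τ t ht.1 ht.2, ← Complex.exp_nat_mul,
      show ((m + 1 : ℕ) : ℂ) * (t * Complex.I) = (((m + 1 : ℕ) * t : ℝ) : ℂ) * Complex.I by
        push_cast; ring, Complex.exp_mul_I, ← Complex.ofReal_cos, ← Complex.ofReal_sin]
    ring
  have hB : ∫ t in Real.pi..2 * Real.pi, FF τ (Complex.exp (t * Complex.I)) *
      (Complex.exp (t * Complex.I)) ^ (m + 1) = Real.exp (Real.pi * τ) * (C - Complex.I * S) := by
    have hsub := intervalIntegral.integral_comp_sub_left (a := 0) (b := Real.pi)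
      (fun t : ℝ => FF τ (Complex.exp (t * Complex.I)) * (Complex.exp (t * Complex.I)) ^ (m + 1))
      (2 * Real.pi)
    rw [show 2 * Real.pi - Real.pi = Real.pi by ring, sub_zero] at hsub
    rw [← hsub, ← Ioo_eq, hC, hS, ← integral_const_mul, ← integral_sub hic (his.const_mul _),
      ← integral_const_mul]
    apply setIntegral_congr_fun measurableSet_Ioo
    intro t ht
    simp only
    have e : Complex.exp ((2 * Real.pi - t : ℝ) * Complex.I) ^ (m + 1) =
        ((Real.cos ((m + 1 : ℕ) * t) : ℝ) : ℂ) - ((Real.sin ((m + 1 : ℕ) * t) : ℝ) : ℂ) * Complex.I := by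
      rw [← Complex.exp_nat_mul,
        show ((m + 1 : ℕ) : ℂ) * ((2 * Real.pi - t : ℝ) * Complex.I) =
          (((-((m + 1 : ℕ) * t) : ℝ) : ℂ) * Complex.I) +
            ((m + 1 : ℕ) : ℤ) * (2 * Real.pi * Complex.I) by push_cast; ring,
        Complex.exp_add, Complex.exp_int_mul_two_pi_mul_I, mul_one, Complex.exp_mul_I,
        ← Complex.ofReal_cos, ← Complex.ofReal_sin, Real.cos_neg, Real.sin_neg]
      push_cast
      ring
    rw [FF_lower τ t ht.1 ht.2, e]
    ring
  rw [← intervalIntegral.integral_add_adjacent_intervals (FF_int τ m 0 Real.pi)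
    (FF_int τ m Real.pi (2 * Real.pi)), hA, hB] at h0
  have h1 := Real.exp_pos (Real.pi * τ)
  have h2 := Real.exp_pos (-(Real.pi * τ))
  have h3 : ((Real.exp (Real.pi * τ) + Real.exp (-(Real.pi * τ)) : ℝ) : ℂ) ≠ 0 := by
    exact_mod_cast (add_pos h1 h2).ne'
  unfold lam
  rw [Complex.ofReal_div]
  field_simp
  push_cast at h0 ⊢
  linear_combination h0

end

end Pool.Agent.Q169.ReExp
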