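import Mathlib
import Pool.Agent.Q169.ReExp.Eig

set_option autoImplicit false
namespace Pool.Agent.Q169.ReExp
open MeasureTheory Set Filter Topology
open scoped InnerProductSpace ENNReal ComplexConjugate

noncomputable section

/-- the vector `f_τ` -/
def fv (τ : ℝ) : H := (memLp_of_bdd (fF_meas τ) 1 (fun t => (fF_norm τ t).le) 2).toLp (fF τ)

theorem eig_inner (τ : ℝ) (n : ℕ) : ⟪c (n + 1), fv τ⟫_ℂ = lam τ * ⟪s (n + 1), fv τ⟫_ℂ := by
  unfold c s fv
  rw [inner_toLp, inner_toLp]
  have h1 : ∀ t : ℝ, fF τ t * conj (cF (n + 1) t) =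
      ((Real.sqrt (2 / Real.pi) : ℝ) : ℂ) * (fF τ t * ((Real.cos ((n + 1 : ℕ) * t) : ℝ) : ℂ)) := by
    intro t
    unfold cF
    rw [Complex.conj_ofReal]
    push_cast
    ring
  have h2 : ∀ t : ℝ, fF τ t * conj (sF (n + 1) t) =
      ((Real.sqrt (2 / Real.pi) : ℝ) : ℂ) * (fF τ t * ((Real.sin ((n + 1 : ℕ) * t) : ℝ) : ℂ)) := by
    intro t
    unfold sF
    rw [Complex.conj_ofReal]
    push_cast
    ring
  simp_rw [h1, h2]
  rw [integral_const_mul, integral_const_mul, eig_int]
  ring

theorem bot_s : (Submodule.span ℂ (range fun n : ℕ => s (n + 1)))ᗮ = ⊥ := by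
  rw [Submodule.eq_bot_iff]
  intro f hf
  have h1 : ∀ j : ℕ, ∫ t in Ioo 0 Real.pi, f t * ((Real.sin ((j + 1 : ℕ) * t) : ℝ) : ℂ) = 0 := by
    intro j
    have h2 : ⟪s (j + 1), f⟫_ℂ = 0 := by
      apply (Submodule.mem_orthogonal _ _).1 hf
      exact Submodule.subset_span ⟨j, rfl⟩
    unfold s at h2
    rw [inner_toLp_left] at h2
    have h3 : ∀ t : ℝ, f t * conj (sF (j + 1) t) =
      ((Real.sqrt (2 / Real.pi) : ℝ) : ℂ) * (f t * ((Real.sin ((j + 1 : ℕ) * t) : ℝ) : ℂ)) := by
      intro t
      unfold sF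
      rw [Complex.conj_ofReal]
      push_cast
      ring
    simp_rw [h3] at h2
    rw [integral_const_mul] at h2
    refine (mul_eq_zero.1 h2).resolve_left ?_
    have := Real.pi_pos
    have h4 : 0 < Real.sqrt (2 / Real.pi) := Real.sqrt_pos.2 (by positivity)
    exact_mod_cast h4.ne'
  exact (Lp.eq_zero_iff_ae_eq_zero).2 (complete_sin (integrable_H f) h1)

/-- only `0` is orthogonal to `1` and all `c_n` -/
theorem ext_c (f : H) (h0 : ⟪one, f⟫_ℂ = 0) (h1 : ∀ n : ℕ, ⟪c (n + 1), f⟫_ℂ = 0) : f = 0 := by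
  have h2 : ∀ j : ℕ, ∫ t in Ioo 0 Real.pi, f t * ((Real.cos (j * t) : ℝ) : ℂ) = 0 := by
    intro j
    rcases j with _ | j
    · unfold one at h0
      rw [inner_toLp_left] at h0
      simpa using h0
    · have h2 := h1 j
      unfold c at h2
      rw [inner_toLp_left] at h2
      have h3 : ∀ t : ℝ, f t * conj (cF (j + 1) t) =
        ((Real.sqrt (2 / Real.pi) : ℝ) : ℂ) * (f t * ((Real.cos ((j + 1 : ℕ) * t) : ℝ) : ℂ)) := by
        intro t
        unfold cF
        rw [Complex.conj_ofReal]
        push_cast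
        ring
      simp_rw [h3] at h2
      rw [integral_const_mul] at h2
      refine (mul_eq_zero.1 h2).resolve_left ?_
      have := Real.pi_pos
      have h4 : 0 < Real.sqrt (2 / Real.pi) := Real.sqrt_pos.2 (by positivity)
      exact_mod_cast h4.ne'
  exact (Lp.eq_zero_iff_ae_eq_zero).2 (complete_cos (integrable_H f) h2)

/-! ### totality of the eigenvectors -/

theorem phi_meas : Measurable phi := by
  unfold phi; fun_prop

/-- left inverse of `phi` -/
theorem phi_left {t : ℝ} (ht : t ∈ Ioo 0 Real.pi) : 2 * Real.arctan (Real.exp (-phi t)) = t := by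
  have hs : 0 < Real.sin (t / 2) :=
    Real.sin_pos_of_pos_of_lt_pi (by linarith [ht.1]) (by linarith [ht.1, ht.2])
  have hpi := Real.pi_pos
  have hc : 0 < Real.cos (t / 2) := Real.cos_pos_of_mem_Ioo ⟨by linarith [ht.1], by linarith [ht.2]⟩
  unfold phi
  rw [Real.exp_neg, Real.exp_log (div_pos hc hs), inv_div, ← Real.tan_eq_sin_div_cos,
    Real.arctan_tan (by linarith [ht.1]) (by linarith [ht.2])]
  ring

theorem ofReal_le_enorm' (x : ℝ) : ENNReal.ofReal x ≤ ‖x‖ₑ := by
  rw [Real.enorm_eq_ofReal_abs]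
  exact ENNReal.ofReal_le_ofReal (le_abs_self x)

theorem real_total {h : ℝ → ℝ} (hh : Integrable h mu)
    (h0 : ∀ x : ℝ, ∫ t in Ioo 0 Real.pi, Complex.exp (x * phi t * Complex.I) * ((h t : ℝ) : ℂ) = 0) :
    h =ᵐ[mu] 0 := by
  have hm := hh.aestronglyMeasurable
  set hp : ℝ → ℝ≥0∞ := fun t => ENNReal.ofReal (h t) with hhp
  set hn : ℝ → ℝ≥0∞ := fun t => ENNReal.ofReal (-h t) with hhn
  have hpm : AEMeasurable hp mu := hm.aemeasurable.ennreal_ofReal
  have hnm : AEMeasurable hn mu := hm.aemeasurable.neg.ennreal_ofReal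
  have hpf : ∫⁻ t, hp t ∂mu ≠ ⊤ := by
    refine ne_of_lt (lt_of_le_of_lt (lintegral_mono fun t => ?_) hh.2)
    exact ofReal_le_enorm' _
  have hnf : ∫⁻ t, hn t ∂mu ≠ ⊤ := by
    refine ne_of_lt (lt_of_le_of_lt (lintegral_mono fun t => ?_) hh.2)
    rw [← enorm_neg]
    exact ofReal_le_enorm' _
  haveI : IsFiniteMeasure (mu.withDensity hp) := isFiniteMeasure_withDensity hpf
  haveI : IsFiniteMeasure (mu.withDensity hn) := isFiniteMeasure_withDensity hnf
  have hch : ∀ x : ℝ, charFun ((mu.withDensity hp).map phi) x =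
      charFun ((mu.withDensity hn).map phi) x := by
    intro x
    have hu : Measurable fun t : ℝ => Complex.exp (x * phi t * Complex.I) := by
      have := phi_meas
      fun_prop
    have hub : ∀ t : ℝ, ‖Complex.exp (x * phi t * Complex.I)‖ ≤ 1 := by
      intro t
      rw [show (x * phi t * Complex.I : ℂ) = ((x * phi t : ℝ) : ℂ) * Complex.I by push_cast; ring,
        Complex.norm_exp_ofReal_mul_I]
    have key : ∀ (k : ℝ → ℝ), AEStronglyMeasurable k mu →
        charFun ((mu.withDensity fun t => ENNReal.ofReal (k t)).map phi) x =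
        ∫ t in Ioo 0 Real.pi, Complex.exp (x * phi t * Complex.I) * ((max (k t) 0 : ℝ) : ℂ) := by
      intro k hk
      rw [charFun_apply_real, integral_map phi_meas.aemeasurable
        (by fun_prop : Measurable fun y : ℝ => Complex.exp (x * y * Complex.I)).aestronglyMeasurable,
        integral_withDensity_eq_integral_toReal_smul₀ hk.aemeasurable.ennreal_ofReal
        (Eventually.of_forall fun t => ENNReal.ofReal_lt_top)]
      apply integral_congr_ae
      filter_upwards with t
      rw [ENNReal.toReal_ofReal', Complex.real_smul, mul_comm]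
    rw [key h hm, key (fun t => -h t) hm.neg, ← sub_eq_zero, ← integral_sub]
    · rw [← h0 x]
      apply integral_congr_ae
      filter_upwards with t
      rw [← mul_sub, ← Complex.ofReal_sub]
      congr 2
      rcases le_total (h t) 0 with h1 | h1
      · rw [max_eq_right h1, max_eq_left (by linarith)]; ring
      · rw [max_eq_left h1, max_eq_right (by linarith)]; ring
    · have : Integrable (fun t => ((max (h t) 0 : ℝ) : ℂ)) mu := hh.pos_part.ofReal
      exact this.bdd_mul (c := 1) hu.aestronglyMeasurable (Eventually.of_forall hub)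
    · have : Integrable (fun t => ((max (-h t) 0 : ℝ) : ℂ)) mu := hh.neg.pos_part.ofReal
      exact this.bdd_mul (c := 1) hu.aestronglyMeasurable (Eventually.of_forall hub)
  have hmap : (mu.withDensity hp).map phi = (mu.withDensity hn).map phi :=
    Measure.ext_of_charFun (funext hch)
  have hψ : Measurable fun y : ℝ => 2 * Real.arctan (Real.exp (-y)) := by fun_prop
  have hback : ∀ k : ℝ → ℝ≥0∞, ((mu.withDensity k).map phi).map
      (fun y : ℝ => 2 * Real.arctan (Real.exp (-y))) = mu.withDensity k := by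
    intro k
    rw [Measure.map_map hψ phi_meas]
    have : (fun y : ℝ => 2 * Real.arctan (Real.exp (-y))) ∘ phi =ᵐ[mu.withDensity k] id := by
      apply (withDensity_absolutelyContinuous mu k).ae_le
      filter_upwards [ae_restrict_mem measurableSet_Ioo] with t ht
      exact phi_left ht
    rw [Measure.map_congr this, Measure.map_id]
  have heq : mu.withDensity hp = mu.withDensity hn := by
    rw [← hback hp, hmap, hback]
  have hae : hp =ᵐ[mu] hn := by
    exact (withDensity_eq_iff hpm hnm hpf).1 heq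
  filter_upwards [hae] with t ht
  simp only [hhp, hhn] at ht
  show h t = 0
  rcases lt_trichotomy (h t) 0 with h1 | h1 | h1
  · rw [ENNReal.ofReal_of_nonpos h1.le] at ht
    have := ENNReal.ofReal_pos.2 (by linarith : 0 < -h t)
    rw [← ht] at this
    exact absurd this (lt_irrefl _)
  · exact h1
  · rw [ENNReal.ofReal_of_nonpos (by linarith : -h t ≤ 0)] at ht
    have := ENNReal.ofReal_pos.2 h1
    rw [ht] at this
    exact absurd this (lt_irrefl _)

theorem total (g : H) (hg : ∀ τ : ℝ, ⟪fv τ, g⟫_ℂ = 0) : g = 0 := by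
  have h1 : ∀ x : ℝ, ∫ t in Ioo 0 Real.pi, g t * Complex.exp (x * phi t * Complex.I) = 0 := by
    intro x
    have h2 := hg (-x / 2)
    unfold fv at h2
    rw [inner_toLp_left] at h2
    rw [← h2]
    apply integral_congr_ae
    filter_upwards with t
    congr 1
    unfold fF
    rw [← Complex.exp_conj]
    congr 1
    simp only [map_mul, Complex.conj_I, Complex.conj_ofReal, map_ofNat]
    push_cast
    ring
  have h2 : ∀ x : ℝ, ∫ t in Ioo 0 Real.pi, conj (g t) * Complex.exp (x * phi t * Complex.I) = 0 := by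
    intro x
    have h3 := h1 (-x)
    have h4 := congrArg (starRingEnd ℂ) h3
    rw [← integral_conj, map_zero] at h4
    rw [← h4]
    apply integral_congr_ae
    filter_upwards with t
    rw [map_mul, ← Complex.exp_conj]
    congr 2
    simp
  have hgi := integrable_H g
  have hgc : Integrable (fun t => conj (g t)) mu := by
    refine ⟨hgi.1.star, ?_⟩
    refine (hgi.2.congr' ?_)
    filter_upwards with t
    simp
  have hu : ∀ x : ℝ, Measurable fun t : ℝ => Complex.exp (x * phi t * Complex.I) := by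
    intro x
    have := phi_meas
    fun_prop
  have hub : ∀ x t : ℝ, ‖Complex.exp (x * phi t * Complex.I)‖ ≤ 1 := by
    intro x t
    rw [show (x * phi t * Complex.I : ℂ) = ((x * phi t : ℝ) : ℂ) * Complex.I by push_cast; ring,
      Complex.norm_exp_ofReal_mul_I]
  have i1 : ∀ x : ℝ, Integrable (fun t => g t * Complex.exp (x * phi t * Complex.I)) mu := fun x =>
    hgi.mul_bdd (c := 1) (hu x).aestronglyMeasurable (Eventually.of_forall (hub x))
  have i2 : ∀ x : ℝ, Integrable (fun t => conj (g t) * Complex.exp (x * phi t * Complex.I)) mu :=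
    fun x => hgc.mul_bdd (c := 1) (hu x).aestronglyMeasurable (Eventually.of_forall (hub x))
  have hre : (fun t => (g t).re) =ᵐ[mu] 0 := by
    apply real_total hgi.re
    intro x
    show ∫ t in Ioo 0 Real.pi, Complex.exp (x * phi t * Complex.I) * (((g t).re : ℝ) : ℂ) = 0
    have e : ∀ t : ℝ, Complex.exp (x * phi t * Complex.I) * (((g t).re : ℝ) : ℂ) =
        (1 / 2 : ℂ) * (g t * Complex.exp (x * phi t * Complex.I)) +
        (1 / 2 : ℂ) * (conj (g t) * Complex.exp (x * phi t * Complex.I)) := by
      intro t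
      rw [Complex.re_eq_add_conj]
      ring
    simp_rw [e]
    rw [integral_add ((i1 x).const_mul _) ((i2 x).const_mul _), integral_const_mul,
      integral_const_mul, h1, h2]
    norm_num
  have him : (fun t => (g t).im) =ᵐ[mu] 0 := by
    apply real_total hgi.im
    intro x
    show ∫ t in Ioo 0 Real.pi, Complex.exp (x * phi t * Complex.I) * (((g t).im : ℝ) : ℂ) = 0
    have e : ∀ t : ℝ, Complex.exp (x * phi t * Complex.I) * (((g t).im : ℝ) : ℂ) =
        (1 / (2 * Complex.I) : ℂ) * (g t * Complex.exp (x * phi t * Complex.I)) -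
        (1 / (2 * Complex.I) : ℂ) * (conj (g t) * Complex.exp (x * phi t * Complex.I)) := by
      intro t
      rw [Complex.im_eq_sub_conj]
      ring
    simp_rw [e]
    rw [integral_sub ((i1 x).const_mul _) ((i2 x).const_mul _), integral_const_mul,
      integral_const_mul, h1, h2]
    norm_num
  apply (Lp.eq_zero_iff_ae_eq_zero).2
  filter_upwards [hre, him] with t a b
  exact Complex.ext a b

end

end Pool.Agent.Q169.ReExp
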